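import Pool.Agent.H46.MW.Fin

/-!
# Path covers: a local inequality, the bound by the largest degree, and the extremal regular graphs

Hand-in for MP_abca84_co. `PathPartition G k` (in `Pool.Agent.H46.MW.Fin`) says that the vertex set
of `G` is partitioned into the vertex sets of `k` paths of `G`.
-/

set_option autoImplicit false

namespace Pool.Agent.Results.MP_abca84_co.LocalBound

open Pool.Agent.H46.MW

/-- (1) A local inequality for the path cover number of every finite graph; (2) the bound
`n - 2e/d + n_d/(d+1)` for graphs with all degrees at most `d`, where `n_d` is the number of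
vertices of degree `d`; (3) the bound `n/(r+1)` for `r`-regular graphs, which is strict if and only
if some component is not complete. -/
theorem result :
    (∀ (V : Type) [Fintype V] [DecidableEq V] (G : SimpleGraph V) [DecidableRel G.Adj]
        (w : V → ℝ),
      (∀ (x : V) (B : Finset V), B ⊆ G.neighborFinset x →
        1 - ∑ c ∈ B, (1 : ℝ) / (G.degree c : ℝ) ≤
          w x * ((G.degree x : ℝ) + 1 - (B.card : ℝ))) →
      ∃ k, PathPartition G k ∧ (k : ℝ) ≤ ∑ x, w x) ∧
    (∀ (V : Type) [Fintype V] [DecidableEq V] (G : SimpleGraph V) [DecidableRel G.Adj] (d : ℕ),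
      1 ≤ d → (∀ x, G.degree x ≤ d) →
      ∃ k, PathPartition G k ∧
        (k : ℝ) ≤ (Fintype.card V : ℝ) - 2 * (G.edgeFinset.card : ℝ) / d +
          ((Finset.univ.filter (fun x => G.degree x = d)).card : ℝ) / (d + 1)) ∧
    (∀ (V : Type) [Fintype V] [DecidableEq V] (G : SimpleGraph V) [DecidableRel G.Adj] (r : ℕ),
      G.IsRegularOfDegree r →
      (∃ k, PathPartition G k ∧ k * (r + 1) ≤ Fintype.card V) ∧
      ((∃ k, PathPartition G k ∧ k * (r + 1) < Fintype.card V) ↔
        ∃ x y z, G.Adj x y ∧ G.Adj y z ∧ x ≠ z ∧ ¬ G.Adj x z)) :=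
  ⟨fun _ _ _ _ _ w h => local_bound w h,
    fun _ _ _ _ _ d hd h => maxdeg_bound d hd h,
    fun _ _ _ _ _ _ hr => ⟨regular_bound hr, regular_strict hr⟩⟩

end Pool.Agent.Results.MP_abca84_co.LocalBound
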